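import Pool.Agent.Helper68.Ucg.Goals

/-!
# Packet SNG
-/

set_option autoImplicit false

open scoped ComplexOrder

namespace Pool.Agent.Helper13.Ucg

open Pool.Agent.Helper39.Uct Pool.Agent.Helper68.Ucg

variable {A B : Type} [NonUnitalCStarAlgebra A] [NonUnitalCStarAlgebra B]

theorem Dd_le_D (G : Diag A) {d : A} (hd : d ∈ G.D) {x : A} (hx : x ∈ Dd G d) : x ∈ G.D := by
  have h : Dd G d ≤ G.D := by
    refine Submodule.topologicalClosure_minimal _ ?_ G.closed
    rintro _ ⟨y, hy, rfl⟩
    exact G.D_mul d hd y hy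
  exact h hx

theorem Dd_mul (G : Diag A) {d : A} {x y : A} (hx : x ∈ Dd G d) (hy : y ∈ G.D) :
    x * y ∈ Dd G d := by
  have hc : Continuous fun z : A => z * y := continuous_id.mul continuous_const
  have h : x ∈ closure ((Submodule.map (LinearMap.mulLeft ℂ d) G.D : Submodule ℂ A) : Set A) := hx
  refine map_mem_closure (f := fun z : A => z * y) hc h ?_
  rintro _ ⟨z, hz, rfl⟩
  refine ⟨z * y, G.D_mul z hz y hy, ?_⟩
  simp [mul_assoc]

theorem pt_Dd (G : Diag A) (φ : G.Pt) {d : A} (hd : d ∈ G.D)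
    (hm : ∀ c ∈ G.D, ∀ b, φ (c * b) = φ c * φ b) (h0 : φ d = 0) {x : A} (hx : x ∈ Dd G d) :
    φ x = 0 := by
  have hc : Continuous φ.toFun :=
    AddMonoidHomClass.continuous_of_bound φ.toFun 1 (fun b => by simpa using φ.bound b)
  have h : x ∈ closure ((Submodule.map (LinearMap.mulLeft ℂ d) G.D : Submodule ℂ A) : Set A) := hx
  have h1 : φ.toFun x ∈ closure ({0} : Set ℂ) := by
    refine map_mem_closure hc h ?_
    rintro _ ⟨z, hz, rfl⟩
    have := hm d hd z
    rw [h0, zero_mul] at this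
    exact this
  simpa using h1

/-- Echelon form of a system of relations. -/
def Ech (G : Diag A) (π : A →⋆ₙₐ[ℂ] B) {m : ℕ} (n : Fin m → A) (d : A) (s : ℕ) : Prop :=
  ∃ (g : A) (p : Fin s → Fin m) (r : Fin s → Fin m → A), g ∈ Dd G d ∧ g ≠ 0 ∧
    Function.Injective p ∧ (∀ j i, r j i ∈ Dd G d) ∧ (∀ j, π (∑ i, n i * r j i) = 0) ∧
    ∀ j k, r j (p k) = if j = k then g else 0

theorem sum_mul' {m : ℕ} (n x : Fin m → A) (y : A) :
    ∑ i, n i * (x i * y) = (∑ i, n i * x i) * y := by
  rw [Finset.sum_mul]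
  exact Finset.sum_congr rfl fun i _ => (mul_assoc _ _ _).symm

theorem step (G : Diag A) (hC : G.Comm) (π : A →⋆ₙₐ[ℂ] B) {m : ℕ} (n : Fin m → A) {d : A}
    (hd : d ∈ G.D) {s : ℕ} {g : A} {p : Fin s → Fin m} {r : Fin s → Fin m → A}
    (hg : g ∈ Dd G d) (hp : Function.Injective p) (hr : ∀ j i, r j i ∈ Dd G d)
    (hz : ∀ j, π (∑ i, n i * r j i) = 0) (he : ∀ j k, r j (p k) = if j = k then g else 0)
    (hs : ¬ Ech G π n d (s + 1)) {x : Fin m → A} (hx : ∀ i, x i ∈ Dd G d)
    (hx0 : π (∑ i, n i * x i) = 0) (i : Fin m) :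
    (x i * g - ∑ j, r j i * x (p j)) * g = 0 := by
  have comm : ∀ u ∈ Dd G d, ∀ v ∈ Dd G d, u * v = v * u := fun u hu v hv =>
    hC u (Dd_le_D G hd hu) v (Dd_le_D G hd hv)
  by_contra hne
  apply hs
  set x' : Fin m → A := fun i => x i * g - ∑ j, r j i * x (p j) with hx'
  have hx'mem : ∀ i, x' i ∈ Dd G d := fun i =>
    (Dd G d).sub_mem (Dd_mul G (hx i) (Dd_le_D G hd hg))
      ((Dd G d).sum_mem fun j _ => Dd_mul G (hr j i) (Dd_le_D G hd (hx (p j))))
  have hx'p : ∀ k, x' (p k) = 0 := by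
    intro k
    simp only [hx', he]
    rw [Finset.sum_eq_single k]
    · simp [comm _ (hx (p k)) _ hg]
    · intro j _ hjk
      simp [hjk]
    · simp
  have hx'0 : π (∑ i, n i * x' i) = 0 := by
    have h1 : ∑ i, n i * x' i = (∑ i, n i * x i) * g - ∑ j, (∑ i, n i * r j i) * x (p j) := by
      simp only [hx', mul_sub, Finset.sum_sub_distrib]
      congr 1
      · exact sum_mul' n x g
      · simp only [Finset.mul_sum]
        rw [Finset.sum_comm]
        exact Finset.sum_congr rfl fun j _ => sum_mul' n (r j) (x (p j))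
    rw [h1, map_sub, map_mul, hx0, zero_mul, map_sum]
    simp [hz]
  refine ⟨x' i * g, Fin.cons i p, Fin.cons (fun i' => x' i' * g)
    (fun j i' => r j i' * x' i - x' i' * r j i), ?_, hne, ?_, ?_, ?_, ?_⟩
  · exact Dd_mul G (hx'mem i) (Dd_le_D G hd hg)
  · rw [Fin.cons_injective_iff]
    refine ⟨?_, hp⟩
    rintro ⟨k, hk⟩
    apply hne
    have h2 := hx'p k
    rw [hk] at h2
    change x' i * g = 0
    rw [h2, zero_mul]
  · intro j
    refine Fin.cases ?_ ?_ j
    · intro i'
      simp only [Fin.cons_zero]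
      exact Dd_mul G (hx'mem i') (Dd_le_D G hd hg)
    · intro j i'
      simp only [Fin.cons_succ]
      exact (Dd G d).sub_mem (Dd_mul G (hr j i') (Dd_le_D G hd (hx'mem i)))
        (Dd_mul G (hx'mem i') (Dd_le_D G hd (hr j i)))
  · intro j
    refine Fin.cases ?_ ?_ j
    · simp only [Fin.cons_zero]
      rw [sum_mul' n x' g, map_mul, hx'0, zero_mul]
    · intro j
      simp only [Fin.cons_succ, mul_sub, Finset.sum_sub_distrib]
      rw [sum_mul' n (r j) (x' i), sum_mul' n x' (r j i), map_sub, map_mul, map_mul, hz, hx'0,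
        zero_mul, zero_mul, sub_zero]
  · intro j k
    refine Fin.cases ?_ ?_ j
    · refine Fin.cases ?_ ?_ k
      · simp
      · intro k
        simp [hx'p, (Fin.succ_ne_zero k).symm]
    · intro j
      refine Fin.cases ?_ ?_ k
      · simp [Fin.succ_ne_zero, comm _ (hr j i) _ (hx'mem i)]
      · intro k
        simp only [Fin.cons_succ, he, hx'p, zero_mul, sub_zero, Fin.succ_inj]
        split_ifs with h
        · exact comm _ hg _ (hx'mem i)
        · simp

theorem sng (hNF : S_NF) : S_SNG := by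
  intro A B _ _ G π hC _ m n d u hK
  have hN := hNF A G hC
  have hd := hK.d_mem
  have comm : ∀ u ∈ Dd G d, ∀ v ∈ Dd G d, u * v = v * u := fun u hu v hv =>
    hC u (Dd_le_D G hd hu) v (Dd_le_D G hd hv)
  have hstar : ∀ φ : G.Pt, ∀ y ∈ G.D, φ (star y) ≠ 0 → φ y ≠ 0 := by
    intro φ y hy h1 h2
    apply h1
    refine hN.null φ (star y) ?_
    rw [star_star, hN.mulL φ y hy, h2, zero_mul]
  have hsep : ∀ y ∈ G.D, y ≠ 0 → ∃ φ : G.Pt, φ y ≠ 0 := by
    intro y hy h
    by_contra hcon
    push Not at hcon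
    exact h (hN.zero y hy hcon)
  have h0 : Ech G π n d 0 := by
    refine ⟨d * d, Fin.elim0, Fin.elim0, ?_, ?_, fun i => i.elim0, fun j => j.elim0,
      fun j => j.elim0, fun j => j.elim0⟩
    · exact Submodule.le_topologicalClosure _ ⟨d, hd, rfl⟩
    · intro h
      apply hK.d_ne
      have h1 : star d * d = 0 := by rw [hK.d_sa.star_eq]; exact h
      exact CStarRing.star_mul_self_eq_zero_iff d |>.1 h1
  have hmax : ∃ s, Ech G π n d s ∧ ¬ Ech G π n d (s + 1) := by
    by_contra hcon
    push Not at hcon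
    have hall : ∀ s, Ech G π n d s := fun s => by
      induction s with
      | zero => exact h0
      | succ s ih => exact hcon s ih
    obtain ⟨_, p, _, _, _, hp, _⟩ := hall (m + 1)
    have := Fintype.card_le_of_injective p hp
    simp at this
  obtain ⟨s, ⟨g, p, r, hg, hgne, hp, hr, hz, he⟩, hs⟩ := hmax
  have hgD := Dd_le_D G hd hg
  have hggD : g * g ∈ G.D := G.D_mul g hgD g hgD
  have hsg : star (g * g) ∈ G.D := G.D_star _ hggD
  refine ⟨(g * g) * star (g * g), Dd_mul G (Dd_mul G hg hgD) hsg, ?_, ?_, ?_⟩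
  · show star _ = _
    rw [star_mul, star_star]
  · obtain ⟨φ, hφ⟩ := hsep g hgD hgne
    intro h
    have h1 : g * g = 0 := by
      have h2 : star (star (g * g)) * star (g * g) = 0 := by rw [star_star]; exact h
      have h3 := (CStarRing.star_mul_self_eq_zero_iff (star (g * g))).1 h2
      exact star_eq_zero.1 h3
    have h4 : φ (g * g) = 0 := by rw [h1]; exact map_zero φ.toFun
    rw [hN.mulL φ g hgD] at h4
    exact hφ (mul_self_eq_zero.1 h4)
  · rintro a ⟨x, hx, rfl⟩ ha
    have hw : ∀ i, (x i * g - ∑ j, r j i * x (p j)) * g = 0 := by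
      intro i
      by_contra hne
      set w := (x i * g - ∑ j, r j i * x (p j)) * g with hwdef
      have hwD : w ∈ Dd G d :=
        Dd_mul G ((Dd G d).sub_mem (Dd_mul G (hx i) hgD)
          ((Dd G d).sum_mem fun j _ => Dd_mul G (hr j i) (Dd_le_D G hd (hx (p j))))) hgD
      have hwD' := Dd_le_D G hd hwD
      have hc1 : star w ∈ G.D := G.D_star _ hwD'
      have hdc : d * star w ≠ 0 := by
        obtain ⟨φ, hφ⟩ := hsep w hwD' hne
        have h1 : φ (star w) ≠ 0 := by
          refine hstar φ (star w) hc1 ?_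
          rwa [star_star]
        have h2 : φ d ≠ 0 := fun h => hφ (pt_Dd G φ hd (hN.mulL φ) h hwD)
        intro h3
        have h4 : φ (d * star w) = 0 := by rw [h3]; exact map_zero φ.toFun
        rw [hN.mulL φ d hd] at h4
        exact (mul_ne_zero h2 h1) h4
      obtain ⟨c', hc', hne', hπ⟩ := ha (star w) hc1 hdc
      set c'' := d * star w * c' with hc''
      have hc''D : c'' ∈ G.D := G.D_mul _ (G.D_mul d hd _ hc1) _ hc'
      have h5 := step G hC π n hd hg hp hr hz he hs (x := fun i => x i * c'')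
        (fun i => Dd_mul G (hx i) hc''D) (by rw [sum_mul' n x c'']; exact hπ) i
      have h6 : w * c'' = 0 := by
        have e1 : x i * c'' * g - ∑ j, r j i * (x (p j) * c'') =
            (x i * g - ∑ j, r j i * x (p j)) * c'' := by
          rw [sub_mul, Finset.sum_mul]
          congr 1
          · rw [mul_assoc (x i) c'' g, mul_assoc (x i) g c'', hC g hgD c'' hc''D]
          · exact Finset.sum_congr rfl fun j _ => (mul_assoc _ _ _).symm
        simp only [e1] at h5
        rw [hwdef, mul_assoc, hC g hgD c'' hc''D, ← mul_assoc]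
        exact h5
      obtain ⟨φ, hφ⟩ := hsep c'' hc''D hne'
      have h7 : φ (star w) ≠ 0 := by
        intro h
        apply hφ
        rw [hc'', hN.mulL φ _ (G.D_mul d hd _ hc1), hN.mulL φ d hd, h, mul_zero, zero_mul]
      have h8 := hstar φ w hwD' h7
      have h9 : φ (w * c'') = 0 := by rw [h6]; exact map_zero φ.toFun
      rw [hN.mulL φ w hwD'] at h9
      exact (mul_ne_zero h8 hφ) h9
    have hfin : (∑ i, n i * x i) * (g * g) = ∑ j, (∑ i, n i * r j i) * (x (p j) * g) := by
      rw [← sum_mul' n x (g * g)]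
      have h1 : ∀ i, x i * (g * g) = ∑ j, r j i * (x (p j) * g) := by
        intro i
        have h2 := hw i
        rw [sub_mul, sub_eq_zero, Finset.sum_mul] at h2
        rw [← mul_assoc, h2]
        exact Finset.sum_congr rfl fun j _ => mul_assoc _ _ _
      simp only [h1, Finset.mul_sum]
      rw [Finset.sum_comm]
      exact Finset.sum_congr rfl fun j _ => sum_mul' n (r j) (x (p j) * g)
    rw [← mul_assoc, map_mul, hfin, map_sum]
    simp [hz]

end Pool.Agent.Helper13.Ucg
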